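import Pool.Agent.N536.VP.Prod

/-!
# Voevodsky's conjecture for one-cycles on products

Let `S` be a set of smooth projective varieties which contains the curves. The homologically trivial
one-cycles on all products `X_0 × ⋯ × X_n` of members of `S` are smash-nilpotent if and only if this
is so for the one-cycles on the products `X × T`, with `X` in `S` and `T` a curve.

For instance (`S` the varieties of dimension at most two) the conjecture for the one-cycles on all
products of surfaces and curves is equivalent to the conjecture for the one-cycles on the
threefolds `surface × curve`.

Proof. Modulo a prime adequate equivalence relation (the smash-nilpotent cycles are those which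
belong to all prime ones) the odd motives `h^1(T)` of the curves have no invariants, so that a
one-cycle on a product is determined by its push-forwards to the products of two factors. On a
product `X × Y` a one-cycle without components on the factors is a sum of correspondences which
factor through odd motives `h^1(T)` of curves; if it is homologically trivial then it is unchanged
by the Albanese projector of `Y`, hence it comes from a one-cycle on `X × T₀`, `T₀` a curve.
-/

open CategoryTheory AlgebraicGeometry

universe u v w

namespace Pool.Agent.Results.MP_bf8edd_ag.OneCyclesOnProducts

open Pool.Agent.H914 Pool.Agent.W492.BB Pool.Agent.TH133 Pool.Agent.X308.V Pool.Agent.X308.A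

/-- **Voevodsky's smash-nilpotence conjecture for one-cycles on products** (for the problem: `𝒱`
the class of all smooth projective varieties over `ℂ`, `C` the Chow groups with rational
coefficients, `H` the Betti cohomology). -/
theorem result {k : Type u} [Field k] {𝒱 : VarClass k} {C : TheoryData.{u, v, 0} 𝒱 ℚ}
    [IsChowProj C] {K : Type w} [Field K] (H : WeilTheoryData.{u, v, w} C K) [IsWeilProj H]
    (hC : CurveProperties C) (S : Set 𝒱.Obj) (hS : ∀ T : 𝒱.Obj, T.dim = 1 → T ∈ S)
    (hA : ∀ X ∈ S, AlbaneseProperty H X) :
    (∀ (n : ℕ) (X : Fin (n + 1) → 𝒱.Obj) (P : 𝒱.Obj) (pr : ∀ i, P ⟶ X i), IsProduct pr →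
      (∀ i, X i ∈ S) → OneCyclesNilpotent H P) ↔
    ∀ X ∈ S, ∀ T : 𝒱.Obj, T.dim = 1 → OneCyclesNilpotent H (X.prod T) :=
  Pool.Agent.N536.VP.main H hC S hS hA

end Pool.Agent.Results.MP_bf8edd_ag.OneCyclesOnProducts
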