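import Pool.Agent.N536.VP.Pair

/-!
# Smash-nilpotence of one-cycles on products is a question on the pairs of factors

Let `P = X_0 × ⋯ × X_{n+1}`. A one-cycle on `P` is smash-nilpotent if and only if its push-forwards
to the products `X_i × X_j`, `i < j`, of two factors are smash-nilpotent. The numerically trivial
one-cycles on `P` are smash-nilpotent if and only if this is so for all `X_i × X_j`, `i < j`.

Proof. The smash-nilpotent cycles are those which belong to all prime adequate equivalence
relations. Modulo a prime one, the oddly finite-dimensional motives `h^1(T)` and `h^1(T)^{⊗ 3}` of a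
curve have no nonzero classes, so that the modified small diagonal of `T × T × T` vanishes; the
one-cycle `f_* [T]` on `X × Y × Z` is therefore determined by its push-forwards to the products of two
factors. For more factors use induction.
-/

open CategoryTheory AlgebraicGeometry

universe u v

namespace Pool.Agent.Results.MP_bf8edd_ag.OneCyclesPairs

open Pool.Agent.H914 Pool.Agent.W492.BB Pool.Agent.TH133 Pool.Agent.TH829.Prime
  Pool.Agent.X308.V

/-- **One-cycles on products and smash-nilpotence** (for the problem: `𝒱` the class of all smooth
projective varieties over `ℂ`, `C` the Chow groups with rational coefficients). -/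
theorem result {k : Type u} [Field k] {𝒱 : VarClass k} {C : TheoryData.{u, v, 0} 𝒱 ℚ}
    [IsChowProj C] (hC : CurveProperties C) {n : ℕ} {X : Fin (n + 2) → 𝒱.Obj} {P : 𝒱.Obj}
    {pr : ∀ i, P ⟶ X i} (hpr : IsProduct pr) :
    (∀ a : C.A P, C.Deg ((P.dim : ℤ) - 1) a → (SmashNilpotent C a ↔
      ∀ i j, i < j → SmashNilpotent C (C.down (VarClass.Obj.lift (pr i) (pr j)) a))) ∧
    (VoevodskyOne C P ↔ ∀ i j, i < j → VoevodskyOne C ((X i).prod (X j))) :=
  ⟨fun _ ha => smash_iff hC hpr ha, Pool.Agent.N536.VP.voevodsky_iff hC hpr⟩

end Pool.Agent.Results.MP_bf8edd_ag.OneCyclesPairs
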