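import Pool.Agent.N132.IXS.Conv

/-!
# A zero-infinity law for Voevodsky's smash-nilpotence conjecture

Let `X` be any smooth projective variety over any field, `W` any Weil cohomology theory with
coefficient field `K`, and `A` the theory of cycles with coefficients in `K` modulo
smash-nilpotence (any theory of cycles modulo an adequate equivalence relation finer than
homological equivalence in which no nonzero class is smash-nilpotent). Then either numerical
equivalence and smash-nilpotence agree on all powers of `X`, or
`dim A(X^n) / rank A(X^n)/num` tends to infinity.
-/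

set_option autoImplicit false

open scoped ENNReal
open Filter Topology
open Pool.Agent.H914 Pool.Agent.H914.VarClass Pool.Agent.H914.VarClass.Obj
open Pool.Agent.Y133.Half Pool.Agent.N132.IXS

universe u v w

namespace Pool.Agent.Results.MP_bf8edd_ag.SmashIndexLaw

/-- **The zero-infinity law for smash-nilpotence.** -/
theorem result {k : Type u} [Field k] {𝒱 : VarClass k} {ops : CycleOps 𝒱}
    {W : WeilCohomology.{u, v} ops} (C : CycleTheory.{u, v, w} W) (hC : C.SmashReduced)
    (X : 𝒱.Obj) :
    (∀ (n : ℕ) (x : C.A (pw X n)), ChowTheory.NumTriv x → x = 0) ∨
      Tendsto (fun n => C.ratio (pw X n)) atTop (𝓝 ⊤) :=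
  smash_final C hC X

end Pool.Agent.Results.MP_bf8edd_ag.SmashIndexLaw
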